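import Pool.Agent.Q218.EA.Ex
import Pool.Agent.TH761.EB.Uniq

/-!
Cheap cuts from the second Borel-Cantelli lemma; bottlenecks; two-sided horns.
-/

set_option autoImplicit false

open MeasureTheory ProbabilityTheory Filter Topology

namespace Pool.Agent.Q218.EA

open Pool.Agent.TH761.EB (Cf GS aa bb horn_fib)

section

variable {X E : Type} {a b : E → X} {R : Set X}
variable (hfib : ∀ x, {e | a e = x ∨ b e = x}.Finite)

theorem bd_disj {S : ℕ → Finset X} (hmono : Monotone S)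
    (hends : ∀ n e, e ∈ bd a b R (S n) → a e ∈ S (n + 1) ∧ b e ∈ S (n + 1)) {m n : ℕ}
    (hmn : m < n) {e : E} (h1 : e ∈ bd a b R (S m)) : e ∉ bd a b R (S n) := by
  intro h2
  have h3 := hends m e h1
  have h4 : S (m + 1) ⊆ S n := hmono hmn
  rcases h2.2.2 with h | h
  · exact h.2 (h4 h3.2)
  · exact h.1 (h4 h3.1)

theorem cheap_of_blocks {μ0 : Measure ℝ} [IsProbabilityMeasure μ0] {S : ℕ → Finset X}
    (hmono : Monotone S)
    (hends : ∀ n e, e ∈ bd a b R (S n) → a e ∈ S (n + 1) ∧ b e ∈ S (n + 1))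
    (hex : ∀ x, ∃ n, x ∈ S n) (m : ℕ → ℕ) (hm : ∀ n, (bd a b R (S n)).ncard ≤ m n)
    (hdiv : ∀ ε : ℝ, 0 < ε → ∑' n, μ0 (Set.Icc (-(ε / ((m n : ℝ) + 1)))
      (ε / ((m n : ℝ) + 1))) ^ (m n) = ⊤) :
    ∀ᵐ J ∂(Measure.infinitePi fun _ : E => μ0), Cheap hfib R J := by
  classical
  have h1 : ∀ᵐ J ∂(Measure.infinitePi fun _ : E => μ0), ∀ k : ℕ, ∃ᶠ n in atTop,
      cw hfib R J (S n) < 1 / ((k : ℝ) + 1) := by
    rw [ae_all_iff]
    intro k
    set ε : ℝ := 1 / ((k : ℝ) + 1) with hε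
    have hε0 : 0 < ε := by positivity
    set Bk : ℕ → Finset E := fun n => (bd_fin (R := R) hfib (S n)).toFinset with hBk
    have hcard : ∀ n, (Bk n).card ≤ m n := by
      intro n
      rw [hBk]
      have := hm n
      rwa [Set.ncard_eq_toFinset_card _ (bd_fin (R := R) hfib (S n))] at this
    have hdis : ∀ i j, i ≠ j → Disjoint (Bk i) (Bk j) := by
      intro i j hij
      rw [Finset.disjoint_left]
      intro e he1 he2
      rw [hBk, Set.Finite.mem_toFinset] at he1 he2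
      rcases lt_or_gt_of_ne hij with h | h
      · exact bd_disj hmono hends h he1 he2
      · exact bd_disj hmono hends h he2 he1
    have h2 := blocks_often (μ := fun _ : E => μ0) hdis
      (fun n => Set.Icc (-(ε / ((m n : ℝ) + 1))) (ε / ((m n : ℝ) + 1)))
      (fun n => measurableSet_Icc) (by
        rw [eq_top_iff, ← hdiv ε hε0]
        refine ENNReal.tsum_le_tsum fun n => ?_
        rw [Finset.prod_const]
        exact pow_le_pow_right_of_le_one' prob_le_one (hcard n))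
    filter_upwards [h2] with J hJ
    refine hJ.mono fun n hn => ?_
    unfold cw
    have hm0 : (0 : ℝ) < (m n : ℝ) + 1 := by positivity
    calc ∑ e ∈ (bd_fin (R := R) hfib (S n)).toFinset, |J e| ≤
          ∑ e ∈ (bd_fin (R := R) hfib (S n)).toFinset, ε / ((m n : ℝ) + 1) :=
          Finset.sum_le_sum fun e he => abs_le.2 (hn e he)
      _ = ((Bk n).card : ℝ) * (ε / ((m n : ℝ) + 1)) := by rw [Finset.sum_const, nsmul_eq_mul]
      _ ≤ (m n : ℝ) * (ε / ((m n : ℝ) + 1)) := by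
          apply mul_le_mul_of_nonneg_right _ (by positivity)
          exact_mod_cast hcard n
      _ < ε := by
          rw [← mul_div_assoc, div_lt_iff₀ hm0]
          nlinarith
  filter_upwards [h1] with J hJ Λ k
  have h2 : ∃ n0, Λ ⊆ S n0 := by
    induction Λ using Finset.induction_on with
    | empty => exact ⟨0, Finset.empty_subset _⟩
    | insert x s _ ih =>
      obtain ⟨n1, h1⟩ := ih
      obtain ⟨n2, h2⟩ := hex x
      refine ⟨max n1 n2, ?_⟩
      rw [Finset.insert_subset_iff]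
      exact ⟨hmono (le_max_right _ _) h2, h1.trans (hmono (le_max_left _ _))⟩
  obtain ⟨n0, hn0⟩ := h2
  obtain ⟨n, hn, h3⟩ := ((hJ k).and_eventually (eventually_ge_atTop n0)).exists
  exact ⟨S n, hn0.trans (hmono h3), hn⟩

/-- Bottlenecks of bounded size. -/
theorem cheap_of_bottlenecks [Countable X] {μ0 : Measure ℝ} [IsProbabilityMeasure μ0]
    (h0 : ∀ t : ℝ, 0 < t → μ0 (Set.Icc (-t) t) ≠ 0) (m : ℕ)
    (hb : ∀ Λ : Finset X, ∃ S : Finset X, Λ ⊆ S ∧ (bd a b R S).ncard ≤ m) :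
    ∀ᵐ J ∂(Measure.infinitePi fun _ : E => μ0), Cheap hfib R J := by
  classical
  choose G hG1 hG2 using hb
  by_cases hX : Nonempty X
  swap
  · have hemp : IsEmpty X := not_nonempty_iff.1 hX
    refine Eventually.of_forall fun J Λ k => ⟨Λ, subset_rfl, ?_⟩
    unfold cw
    have : (bd_fin (R := R) hfib Λ).toFinset = ∅ := by
      ext e
      exact (hemp.false (a e)).elim
    rw [this, Finset.sum_empty]
    positivity
  obtain ⟨f, hf⟩ := exists_surjective_nat X
  set S : ℕ → Finset X := fun n => Nat.rec (G ∅)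
    (fun n s => G (s ∪ {f n} ∪ (T hfib s).image a ∪ (T hfib s).image b)) n with hS
  have hSs : ∀ n, S (n + 1) =
      G (S n ∪ {f n} ∪ (T hfib (S n)).image a ∪ (T hfib (S n)).image b) := fun n => rfl
  have hsub : ∀ n, S n ∪ {f n} ∪ (T hfib (S n)).image a ∪ (T hfib (S n)).image b ⊆ S (n + 1) :=
    fun n => by rw [hSs]; exact hG1 _
  have hmono : Monotone S := by
    apply monotone_nat_of_le_succ
    intro n x hx
    exact hsub n (by simp [hx])
  refine cheap_of_blocks hfib hmono (fun n e he => ?_) (fun x => ?_) (fun _ => m) (fun n => ?_)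
    (fun ε hε => ?_)
  · have h1 : e ∈ T hfib (S n) := by
      rcases he.2.2 with h | h
      · exact (mem_T hfib _ e).2 (Or.inl h.1)
      · exact (mem_T hfib _ e).2 (Or.inr h.2)
    refine ⟨hsub n ?_, hsub n ?_⟩
    · simp only [Finset.mem_union, Finset.mem_image]
      exact Or.inl (Or.inr ⟨e, h1, rfl⟩)
    · simp only [Finset.mem_union, Finset.mem_image]
      exact Or.inr ⟨e, h1, rfl⟩
  · obtain ⟨n, rfl⟩ := hf x
    exact ⟨n + 1, hsub n (by simp)⟩
  · rcases n with _ | n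
    · exact hG2 ∅
    · rw [hSs]; exact hG2 _
  · exact ENNReal.tsum_const_eq_top_of_ne_zero (pow_ne_zero _ (h0 _ (by positivity)))

end

/-! ### Two-sided horns in `ℤ^(k+1)` -/

theorem natAbs_le' {x : ℤ} {n : ℕ} (h : |x| ≤ n) : x.natAbs ≤ n := by
  rw [Int.abs_eq_natAbs] at h
  exact_mod_cast h

/-- The two-sided horn. -/
def horn2 (k : ℕ) (w : ℕ → ℕ) : Set (Fin (k + 1) → ℤ) :=
  {v | ∀ i : Fin k, |v i.succ| ≤ (w (v 0).natAbs : ℤ)}

/-- The box. -/
noncomputable def bx (k : ℕ) (w : ℕ → ℕ) (n : ℕ) : Finset (Fin (k + 1) → ℤ) :=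
  Fintype.piFinset (Fin.cons (Finset.Icc (-(n : ℤ)) n)
    fun _ => Finset.Icc (-((n + w n : ℕ) : ℤ)) ((n + w n : ℕ) : ℤ))

theorem mem_bx {k : ℕ} {w : ℕ → ℕ} {n : ℕ} {v : Fin (k + 1) → ℤ} :
    v ∈ bx k w n ↔ |v 0| ≤ n ∧ ∀ i : Fin k, |v i.succ| ≤ ((n + w n : ℕ) : ℤ) := by
  unfold bx
  rw [Fintype.mem_piFinset, Fin.forall_fin_succ]
  simp only [Fin.cons_zero, Fin.cons_succ, Finset.mem_Icc, abs_le]

theorem mem_bx_horn {k : ℕ} {w : ℕ → ℕ} (hw : Monotone w) {n : ℕ} {v : Fin (k + 1) → ℤ}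
    (hv : v ∈ horn2 k w) : v ∈ bx k w n ↔ |v 0| ≤ n := by
  rw [mem_bx]
  refine ⟨fun h => h.1, fun h => ⟨h, fun i => (hv i).trans ?_⟩⟩
  have h1 : (v 0).natAbs ≤ n := natAbs_le' h
  have h2 := hw h1
  push_cast
  omega

theorem bx_mono {k : ℕ} {w : ℕ → ℕ} (hw : Monotone w) : Monotone (bx k w) := by
  intro m n hmn v hv
  rw [mem_bx] at hv ⊢
  have h1 := hw hmn
  refine ⟨hv.1.trans (by exact_mod_cast hmn), fun i => (hv.2 i).trans ?_⟩
  exact_mod_cast (by omega : m + w m ≤ n + w n)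

theorem bb_zero' {k : ℕ} (v : Fin (k + 1) → ℤ) (i : Fin (k + 1)) :
    bb (v, i) 0 = v 0 + if i = 0 then 1 else 0 := by
  unfold bb
  by_cases h : i = 0
  · subst h; simp
  · simp [h, Ne.symm h]

theorem bb_succ' {k : ℕ} (v : Fin (k + 1) → ℤ) (j : Fin k) :
    bb (v, (0 : Fin (k + 1))) j.succ = v j.succ := by
  unfold bb
  simp

/-- The boundary bonds of a box in the horn. -/
theorem bd_horn {k : ℕ} {w : ℕ → ℕ} (hw : Monotone w) {n : ℕ}
    {e : (Fin (k + 1) → ℤ) × Fin (k + 1)} (he : e ∈ bd aa bb (horn2 k w) (bx k w n)) :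
    e.2 = 0 ∧ (e.1 0 = n ∨ e.1 0 = -(n : ℤ) - 1) ∧ ∀ j : Fin k, |e.1 j.succ| ≤ w n := by
  obtain ⟨v, i⟩ := e
  obtain ⟨h1, h2, h3⟩ := he
  rw [mem_bx_horn hw h1, mem_bx_horn hw h2] at h3
  have ha : aa (v, i) 0 = v 0 := rfl
  have hb := bb_zero' v i
  rw [ha, hb] at h3
  have hi : i = 0 := by
    by_contra hi
    rw [if_neg hi, add_zero] at h3
    tauto
  subst hi
  rw [if_pos rfl] at h3 hb
  refine ⟨rfl, ?_, fun j => ?_⟩
  · simp only [abs_le] at h3
    show v 0 = n ∨ v 0 = -(n : ℤ) - 1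
    omega
  · show |v j.succ| ≤ w n
    rcases h3 with h3 | h3
    · refine (h1 j).trans ?_
      have : (v 0).natAbs ≤ n := natAbs_le' h3.1
      exact_mod_cast hw this
    · have h4 := h2 j
      rw [bb_succ', hb] at h4
      refine h4.trans ?_
      have : (v 0 + 1).natAbs ≤ n := natAbs_le' h3.2
      exact_mod_cast hw this

theorem bd_horn_ends {k : ℕ} {w : ℕ → ℕ} (hw : Monotone w) (n : ℕ)
    (e : (Fin (k + 1) → ℤ) × Fin (k + 1)) (he : e ∈ bd aa bb (horn2 k w) (bx k w n)) :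
    aa e ∈ bx k w (n + 1) ∧ bb e ∈ bx k w (n + 1) := by
  obtain ⟨h1, h2, h3⟩ := bd_horn hw he
  obtain ⟨v, i⟩ := e
  simp only at h1 h2 h3
  subst h1
  rw [mem_bx_horn hw he.1, mem_bx_horn hw he.2.1]
  have ha : aa (v, (0 : Fin (k + 1))) 0 = v 0 := rfl
  have hb := bb_zero' v 0
  rw [if_pos rfl] at hb
  rw [ha, hb]
  push_cast
  constructor
  · rw [abs_le]; omega
  · rw [abs_le]; omega

theorem bd_horn_card {k : ℕ} {w : ℕ → ℕ} (hw : Monotone w) (n : ℕ) :
    (bd aa bb (horn2 k w) (bx k w n)).ncard ≤ 2 * (2 * w n + 1) ^ k := by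
  classical
  set F : Finset ((Fin (k + 1) → ℤ) × Fin (k + 1)) :=
    (Fintype.piFinset (Fin.cons ({(n : ℤ), -(n : ℤ) - 1} : Finset ℤ)
      fun _ => Finset.Icc (-(w n : ℤ)) (w n))).image fun v => (v, 0) with hF
  have hsub : bd aa bb (horn2 k w) (bx k w n) ⊆ (F : Set _) := by
    intro e he
    obtain ⟨h1, h2, h3⟩ := bd_horn hw he
    rw [hF, Finset.coe_image]
    refine ⟨e.1, ?_, by rw [← h1]⟩
    rw [Finset.mem_coe, Fintype.mem_piFinset, Fin.forall_fin_succ]
    refine ⟨?_, fun j => ?_⟩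
    · simpa using h2
    · simp only [Fin.cons_succ, Finset.mem_Icc]
      exact abs_le.1 (h3 j)
  refine (Set.ncard_le_ncard hsub F.finite_toSet).trans ?_
  rw [Set.ncard_coe_finset]
  refine Finset.card_image_le.trans ?_
  rw [Fintype.card_piFinset, Fin.prod_univ_succ]
  simp only [Fin.cons_zero, Fin.cons_succ, Int.card_Icc, Finset.prod_const, Finset.card_univ,
    Fintype.card_fin]
  apply Nat.mul_le_mul Finset.card_le_two
  apply Nat.pow_le_pow_left
  omega

theorem horn2_inf (k : ℕ) (w : ℕ → ℕ) : (horn2 k w).Infinite := by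
  refine Set.infinite_of_injective_forall_mem (f := fun n : ℕ => (Fin.cons (n : ℤ) 0 :
    Fin (k + 1) → ℤ)) (fun m n h => ?_) fun n i => ?_
  · have := congrFun h 0
    simpa using this
  · simp

end Pool.Agent.Q218.EA
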