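import Pool.Agent.Q218.EA.Fib
import Pool.Agent.TH761.EB.Gen

/-!
Ground states on a region of a graph with cheap cut sets: uniqueness.
-/

set_option autoImplicit false

open MeasureTheory ProbabilityTheory Filter

namespace Pool.Agent.Q218.EA

open Pool.Agent.TH761.EB (Cf GS)

variable {X E : Type} {a b : E → X} {R : Set X}

/-- The bonds of the region `R` which join `S` and its complement. -/
def bd (a b : E → X) (R : Set X) (S : Finset X) : Set E :=
  {e | a e ∈ R ∧ b e ∈ R ∧ ((a e ∈ S ∧ b e ∉ S) ∨ (a e ∉ S ∧ b e ∈ S))}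

section

variable (hfib : ∀ x, {e | a e = x ∨ b e = x}.Finite)

open Classical in
/-- The bonds which have an end in `S`. -/
noncomputable def T (S : Finset X) : Finset E := S.biUnion fun x => (hfib x).toFinset

theorem mem_T (S : Finset X) (e : E) : e ∈ T hfib S ↔ a e ∈ S ∨ b e ∈ S := by
  classical
  simp only [T, Finset.mem_biUnion, Set.Finite.mem_toFinset, Set.mem_ofPred_eq]
  constructor
  · rintro ⟨x, hx, h | h⟩
    · left; rw [h]; exact hx
    · right; rw [h]; exact hx
  · rintro (h | h)
    · exact ⟨_, h, Or.inl rfl⟩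
    · exact ⟨_, h, Or.inr rfl⟩

include hfib in
theorem bd_fin (S : Finset X) : (bd a b R S).Finite := by
  refine (T hfib S).finite_toSet.subset ?_
  rintro e ⟨_, _, h | h⟩
  · exact (mem_T hfib S e).2 (Or.inl h.1)
  · exact (mem_T hfib S e).2 (Or.inr h.2)

/-- The total weight of the cut. -/
noncomputable def cw (R : Set X) (J : E → ℝ) (S : Finset X) : ℝ :=
  ∑ e ∈ (bd_fin (R := R) hfib S).toFinset, |J e|

theorem cw_nonneg (J : E → ℝ) (S : Finset X) : 0 ≤ cw hfib R J S :=
  Finset.sum_nonneg fun _ _ => abs_nonneg _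

open Classical in
/-- The bonds of `R` inside `S`. -/
noncomputable def inn (R : Set X) (S : Finset X) : Finset E :=
  (T hfib S).filter fun e => (a e ∈ R ∧ b e ∈ R) ∧ a e ∈ S ∧ b e ∈ S

open Classical in
/-- The configuration which is `-1` on `A`. -/
noncomputable def cc (R : Set X) (A : Finset X) (x : X) : ℝ :=
  if x ∈ R then (if x ∈ A then -1 else 1) else 0

theorem cc_cf (A : Finset X) : Cf R (cc R A) := by
  classical
  refine ⟨fun x hx => ?_, fun x hx => ?_⟩
  · simp only [cc, hx, if_true]; split_ifs <;> simp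
  · simp only [cc, hx, if_false]

/-- The sum of the satisfied minus the violated couplings inside `S`. -/
noncomputable def KS (R : Set X) (S : Finset X) (f : X → ℝ) (J : E → ℝ) : ℝ :=
  ∑ e ∈ inn hfib R S, J e * (f (a e) * f (b e))

open Classical in
/-- The sets for which the bond `e0` has the sign `s`. -/
noncomputable def fam (a b : E → X) (R : Set X) (e0 : E) (s : ℝ) (S : Finset X) :
    Finset (Finset X) :=
  S.powerset.filter fun A => cc R A (a e0) * cc R A (b e0) = s

/-- The optimum under the constraint that the bond `e0` has the sign `s`; zero if there is no such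
configuration. -/
noncomputable def M (R : Set X) (e0 : E) (s : ℝ) (S : Finset X) (J : E → ℝ) : ℝ :=
  if h : (fam a b R e0 s S).Nonempty then
    (fam a b R e0 s S).sup' h fun A => KS hfib R S (cc R A) J else 0

/-- The difference of the two optima. -/
noncomputable def DD (R : Set X) (e0 : E) (S : Finset X) (J : E → ℝ) : ℝ :=
  M hfib R e0 1 S J - M hfib R e0 (-1) S J

theorem KS_meas (S : Finset X) (f : X → ℝ) : Measurable (KS hfib R S f) :=
  Finset.measurable_sum _ fun e _ => (measurable_pi_apply e).mul_const _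

theorem M_meas (e0 : E) (s : ℝ) (S : Finset X) : Measurable (M hfib R e0 s S) := by
  unfold M
  by_cases h : (fam a b R e0 s S).Nonempty
  · simp only [h, dif_pos]
    have h1 := Finset.measurable_sup' h (f := fun A J => KS hfib R S (cc R A) J)
      (fun A _ => KS_meas hfib S _)
    convert h1 using 1
    ext J
    rw [Finset.sup'_apply]
  · simp only [h, dif_neg, not_false_eq_true]
    exact measurable_const

theorem DD_meas (e0 : E) (S : Finset X) : Measurable (DD hfib R e0 S) :=
  (M_meas hfib e0 1 S).sub (M_meas hfib e0 (-1) S)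

theorem cw_meas (S : Finset X) : Measurable fun J : E → ℝ => cw hfib R J S := by
  unfold cw
  exact Finset.measurable_sum _ fun e _ => (measurable_pi_apply e).abs

variable [DecidableEq E]

theorem cw_update {e0 : E} {S : Finset X} (ha : a e0 ∈ S) (hb : b e0 ∈ S) (J : E → ℝ) (t : ℝ) :
    cw hfib R (Function.update J e0 t) S = cw hfib R J S := by
  unfold cw
  apply Finset.sum_congr rfl
  intro e he
  rw [Set.Finite.mem_toFinset] at he
  rw [Function.update_of_ne]
  rintro rfl
  rcases he.2.2 with h | h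
  · exact h.2 hb
  · exact h.1 ha

theorem KS_update {e0 : E} {S : Finset X} (haR : a e0 ∈ R) (hbR : b e0 ∈ R) (ha : a e0 ∈ S)
    (hb : b e0 ∈ S) (J : E → ℝ) (t : ℝ) (f : X → ℝ) :
    KS hfib R S f (Function.update J e0 t) =
      KS hfib R S f (Function.update J e0 0) + t * (f (a e0) * f (b e0)) := by
  classical
  have hmem : e0 ∈ inn hfib R S := by
    unfold inn
    rw [Finset.mem_filter]
    exact ⟨(mem_T hfib S e0).2 (Or.inl ha), ⟨haR, hbR⟩, ha, hb⟩
  unfold KS
  rw [← Finset.sum_erase_add _ _ hmem, ← Finset.sum_erase_add _ _ hmem, Function.update_self,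
    Function.update_self, zero_mul, add_zero]
  congr 1
  apply Finset.sum_congr rfl
  intro e he
  rw [Function.update_of_ne (Finset.ne_of_mem_erase he), Function.update_of_ne
    (Finset.ne_of_mem_erase he)]

theorem M_update {e0 : E} {S : Finset X} (haR : a e0 ∈ R) (hbR : b e0 ∈ R) (ha : a e0 ∈ S)
    (hb : b e0 ∈ S) (J : E → ℝ) (t s : ℝ) (h : (fam a b R e0 s S).Nonempty) :
    M hfib R e0 s S (Function.update J e0 t) =
      M hfib R e0 s S (Function.update J e0 0) + t * s := by
  unfold M
  simp only [h, dif_pos]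
  have h1 : ∀ A ∈ fam a b R e0 s S, KS hfib R S (cc R A) (Function.update J e0 t) =
      KS hfib R S (cc R A) (Function.update J e0 0) + t * s := by
    intro A hA
    rw [KS_update hfib haR hbR ha hb, (Finset.mem_filter.1 hA).2]
  apply le_antisymm
  · apply Finset.sup'_le
    intro A hA
    rw [h1 A hA]
    have := Finset.le_sup' (fun A => KS hfib R S (cc R A) (Function.update J e0 0)) hA
    linarith
  · rw [← le_sub_iff_add_le]
    apply Finset.sup'_le
    intro A hA
    rw [le_sub_iff_add_le, ← h1 A hA]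
    exact Finset.le_sup' (fun A => KS hfib R S (cc R A) (Function.update J e0 t)) hA

omit [DecidableEq E] in
theorem fam_pos {e0 : E} {S : Finset X} (haR : a e0 ∈ R) (hbR : b e0 ∈ R) :
    (fam a b R e0 1 S).Nonempty := by
  classical
  refine ⟨∅, ?_⟩
  unfold fam
  rw [Finset.mem_filter]
  refine ⟨Finset.empty_mem_powerset S, ?_⟩
  simp [cc, haR, hbR]

omit [DecidableEq E] in
theorem fam_neg {e0 : E} {S : Finset X} (haR : a e0 ∈ R) (hbR : b e0 ∈ R) (ha : a e0 ∈ S)
    (hne : a e0 ≠ b e0) : (fam a b R e0 (-1) S).Nonempty := by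
  classical
  refine ⟨{a e0}, ?_⟩
  unfold fam
  rw [Finset.mem_filter]
  refine ⟨Finset.mem_powerset.2 (Finset.singleton_subset_iff.2 ha), ?_⟩
  have h1 : b e0 ∉ ({a e0} : Finset X) := fun h => hne (Finset.mem_singleton.1 h).symm
  simp [cc, haR, hbR, Ne.symm hne]

theorem DD_update {e0 : E} {S : Finset X} (haR : a e0 ∈ R) (hbR : b e0 ∈ R) (ha : a e0 ∈ S)
    (hb : b e0 ∈ S) (hne : a e0 ≠ b e0) (J : E → ℝ) (t : ℝ) :
    DD hfib R e0 S (Function.update J e0 t) = DD hfib R e0 S (Function.update J e0 0) + 2 * t := by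
  unfold DD
  rw [M_update hfib haR hbR ha hb J t 1 (fam_pos haR hbR),
    M_update hfib haR hbR ha hb J t (-1) (fam_neg haR hbR ha hne)]
  ring

omit [DecidableEq E] in
/-- A ground state is almost optimal inside a set with a cheap cut. -/
theorem gs_opt {J : E → ℝ} {σ : X → ℝ} (hσ : GS a b R J σ) {e0 : E} {s : ℝ} {S : Finset X} (ha : a e0 ∈ S) (hb : b e0 ∈ S)
    (hs : σ (a e0) * σ (b e0) = s) (s' : ℝ) (hss : s ≠ s')
    (hn : (fam a b R e0 s' S).Nonempty) :
    M hfib R e0 s' S J ≤ M hfib R e0 s S J + 2 * cw hfib R J S := by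
  classical
  -- the trace of σ
  set A0 : Finset X := S.filter fun x => σ x = -1 with hA0
  have hcc : ∀ x ∈ S, cc R A0 x = σ x := by
    intro x hx
    unfold cc
    by_cases hxR : x ∈ R
    · rw [if_pos hxR]
      rcases hσ.1.1 x hxR with h | h
      · rw [if_neg]
        · exact h.symm
        · rw [hA0, Finset.mem_filter]
          rintro ⟨_, h2⟩
          rw [h] at h2
          norm_num at h2
      · rw [if_pos]
        · exact h.symm
        · rw [hA0, Finset.mem_filter]
          exact ⟨hx, h⟩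
    · rw [if_neg hxR, hσ.1.2 x hxR]
  have hA0m : A0 ∈ fam a b R e0 s S := by
    unfold fam
    rw [Finset.mem_filter, hcc _ ha, hcc _ hb]
    exact ⟨Finset.mem_powerset.2 (Finset.filter_subset _ _), hs⟩
  have hKσ : KS hfib R S (cc R A0) J = KS hfib R S σ J := by
    unfold KS
    apply Finset.sum_congr rfl
    intro e he
    unfold inn at he
    rw [Finset.mem_filter] at he
    rw [hcc _ he.2.2.1, hcc _ he.2.2.2]
  have h1 : KS hfib R S σ J ≤ M hfib R e0 s S J := by
    have hne : (fam a b R e0 s S).Nonempty := ⟨A0, hA0m⟩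
    unfold M
    rw [dif_pos hne, ← hKσ]
    exact Finset.le_sup' (fun A => KS hfib R S (cc R A) J) hA0m
  -- the competitor
  obtain ⟨A, hA, hAe⟩ := Finset.exists_mem_eq_sup' hn fun A => KS hfib R S (cc R A) J
  have hM : M hfib R e0 s' S J = KS hfib R S (cc R A) J := by
    unfold M
    rw [dif_pos hn, hAe]
  set ρ : X → ℝ := fun x => if x ∈ S then cc R A x else σ x with hρ
  have hρS : ∀ x ∈ S, ρ x = cc R A x := fun x hx => by rw [hρ]; simp only [hx, if_true]
  have hρo : ∀ x, x ∉ S → ρ x = σ x := fun x hx => by rw [hρ]; simp only [hx, if_false]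
  have hρcf : Cf R ρ := by
    refine ⟨fun x hx => ?_, fun x hx => ?_⟩
    · by_cases hxS : x ∈ S
      · rw [hρS x hxS]; exact (cc_cf A).1 x hx
      · rw [hρo x hxS]; exact hσ.1.1 x hx
    · by_cases hxS : x ∈ S
      · rw [hρS x hxS]; exact (cc_cf A).2 x hx
      · rw [hρo x hxS]; exact hσ.1.2 x hx
  have hfin : {x | ρ x ≠ σ x}.Finite := by
    refine S.finite_toSet.subset fun x hx => ?_
    by_contra hxS
    exact hx (hρo x hxS)
  have hne : ρ ≠ σ := by
    intro h
    apply hss
    have h2 := (Finset.mem_filter.1 hA).2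
    rw [← hs, ← h2, ← hρS _ ha, ← hρS _ hb, h]
  have h2 := hσ.2 ρ hρcf hfin hne
  have hfs : ∑ᶠ e, J e * (σ (a e) * σ (b e) - ρ (a e) * ρ (b e)) =
      ∑ e ∈ T hfib S, J e * (σ (a e) * σ (b e) - ρ (a e) * ρ (b e)) := by
    apply finsum_eq_sum_of_support_subset
    intro e he
    by_contra hc2
    apply he
    have h1 : ¬ (a e ∈ S ∨ b e ∈ S) := fun h => hc2 ((mem_T hfib S e).2 h)
    push Not at h1
    simp only [hρo _ h1.1, hρo _ h1.2, sub_self, mul_zero]
  rw [hfs] at h2
  -- split the bonds
  have hsplit : ∑ e ∈ T hfib S, J e * (σ (a e) * σ (b e) - ρ (a e) * ρ (b e)) ≤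
      (KS hfib R S σ J - KS hfib R S (cc R A) J) + 2 * cw hfib R J S := by
    have e1 : KS hfib R S σ J - KS hfib R S (cc R A) J = ∑ e ∈ T hfib S,
        if ((a e ∈ R ∧ b e ∈ R) ∧ a e ∈ S ∧ b e ∈ S) then
          J e * (σ (a e) * σ (b e) - ρ (a e) * ρ (b e)) else 0 := by
      rw [← Finset.sum_filter]
      unfold KS inn
      rw [← Finset.sum_sub_distrib]
      apply Finset.sum_congr rfl
      intro e he
      rw [Finset.mem_filter] at he
      rw [hρS _ he.2.2.1, hρS _ he.2.2.2]
      ring
    have e2 : cw hfib R J S = ∑ e ∈ T hfib S, if e ∈ bd a b R S then |J e| else 0 := by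
      rw [← Finset.sum_filter]
      unfold cw
      apply Finset.sum_congr _ fun _ _ => rfl
      ext e
      rw [Set.Finite.mem_toFinset, Finset.mem_filter]
      constructor
      · intro he
        refine ⟨?_, he⟩
        rcases he.2.2 with h | h
        · exact (mem_T hfib S e).2 (Or.inl h.1)
        · exact (mem_T hfib S e).2 (Or.inr h.2)
      · exact fun he => he.2
    rw [e1, e2, Finset.mul_sum, ← Finset.sum_add_distrib]
    apply Finset.sum_le_sum
    intro e he
    rw [mem_T] at he
    by_cases hR : a e ∈ R ∧ b e ∈ R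
    · by_cases hS : a e ∈ S ∧ b e ∈ S
      · rw [if_pos ⟨hR, hS⟩]
        have : 0 ≤ (if e ∈ bd a b R S then |J e| else 0) := by split_ifs <;> positivity
        linarith
      · rw [if_neg (fun h => hS h.2)]
        have hbd : e ∈ bd a b R S := by
          refine ⟨hR.1, hR.2, ?_⟩
          by_cases h3 : a e ∈ S
          · exact Or.inl ⟨h3, fun h4 => hS ⟨h3, h4⟩⟩
          · exact Or.inr ⟨h3, he.resolve_left h3⟩
        rw [if_pos hbd, zero_add]
        refine (le_abs_self _).trans ?_
        rw [abs_mul, mul_comm]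
        apply mul_le_mul_of_nonneg_right _ (abs_nonneg _)
        rcases hσ.1.1 _ hR.1 with h3 | h3 <;> rcases hσ.1.1 _ hR.2 with h4 | h4 <;>
          rcases hρcf.1 _ hR.1 with h5 | h5 <;> rcases hρcf.1 _ hR.2 with h6 | h6 <;>
          rw [h3, h4, h5, h6] <;> norm_num
    · have hz : J e * (σ (a e) * σ (b e) - ρ (a e) * ρ (b e)) = 0 := by
        by_cases h3 : a e ∈ R
        · have h4 : b e ∉ R := fun h => hR ⟨h3, h⟩
          rw [hσ.1.2 _ h4, hρcf.2 _ h4]
          ring
        · rw [hσ.1.2 _ h3, hρcf.2 _ h3]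
          ring
      rw [hz, if_neg (fun h => hR h.1), if_neg (fun h => hR ⟨h.1, h.2.1⟩)]
      norm_num
  linarith

end

end Pool.Agent.Q218.EA
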