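import Pool.Agent.Q218.EA.Cut

/-!
Ground states on a region of a graph: existence (after `TH761.EB.exists_gs`), and the criterion.
-/

set_option autoImplicit false

open MeasureTheory ProbabilityTheory Filter

namespace Pool.Agent.Q218.EA

open Pool.Agent.TH761.EB (Cf GS)

variable {X E : Type} {a b : E → X} {R : Set X}

theorem exists_gs (hfib : ∀ x, {e | a e = x ∨ b e = x}.Finite)
    (hfront : ∀ D : Finset X, D.Nonempty → (D : Set X) ⊆ R →
      ∃ e, (a e ∈ D ∧ b e ∈ R ∧ b e ∉ D) ∨ (b e ∈ D ∧ a e ∈ R ∧ a e ∉ D))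
    {J : E → ℝ} (hJ : ∀ T1 T2 : Finset E, Disjoint T1 T2 → (∃ e, e ∈ T1 ∨ e ∈ T2) →
      ∑ e ∈ T1, J e ≠ ∑ e ∈ T2, J e) :
    ∃ σ, GS a b R J σ := by
  classical
  set c : Finset X → X → ℝ := fun A x => if x ∈ R then (if x ∈ A then -1 else 1) else 0 with hc
  have hcpm : ∀ A, Cf R (c A) := by
    intro A
    refine ⟨fun x hx => ?_, fun x hx => ?_⟩
    · simp only [hc, hx, if_true]; split_ifs <;> simp
    · simp only [hc, hx, if_false]
  set T : Finset X → Finset E := fun Λ => Λ.biUnion fun x => (hfib x).toFinset with hT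
  have memT : ∀ Λ e, e ∈ T Λ ↔ a e ∈ Λ ∨ b e ∈ Λ := by
    intro Λ e
    simp only [hT, Finset.mem_biUnion, Set.Finite.mem_toFinset, Set.mem_ofPred_eq]
    constructor
    · rintro ⟨x, hx, h | h⟩
      · left; rw [h]; exact hx
      · right; rw [h]; exact hx
    · rintro (h | h)
      · exact ⟨_, h, Or.inl rfl⟩
      · exact ⟨_, h, Or.inr rfl⟩
  have hmax : ∀ Λ : Finset X, ∃ A : Finset X, A ⊆ Λ ∧ ∀ B : Finset X, B ⊆ Λ →
      ∑ e ∈ T Λ, J e * (c B (a e) * c B (b e)) ≤ ∑ e ∈ T Λ, J e * (c A (a e) * c A (b e)) := by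
    intro Λ
    obtain ⟨A, hA1, hA⟩ := Finset.exists_max_image Λ.powerset
      (fun A => ∑ e ∈ T Λ, J e * (c A (a e) * c A (b e))) ⟨∅, by simp⟩
    exact ⟨A, Finset.mem_powerset.1 hA1, fun B hB => hA B (Finset.mem_powerset.2 hB)⟩
  choose A hAs hA using hmax
  set U : Ultrafilter (Finset X) := Ultrafilter.of Filter.atTop with hU
  set σ : X → ℝ := fun x => if x ∈ R then (if ∀ᶠ Λ in (U : Filter (Finset X)), c (A Λ) x = 1
    then 1 else -1) else 0 with hσ
  have hlim : ∀ x, ∀ᶠ Λ in (U : Filter (Finset X)), c (A Λ) x = σ x := by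
    intro x
    by_cases hx : x ∈ R
    · by_cases h : ∀ᶠ Λ in (U : Filter (Finset X)), c (A Λ) x = 1
      · simp only [hσ, h, hx, if_true]
      · simp only [hσ, h, hx, if_false, if_true]
        rw [← Ultrafilter.eventually_not] at h
        filter_upwards [h] with Λ hΛ
        rcases (hcpm (A Λ)).1 x hx with h1 | h1
        · exact absurd h1 hΛ
        · exact h1
    · simp only [hσ, hx, if_false]
      exact Filter.Eventually.of_forall fun Λ => (hcpm (A Λ)).2 x hx
  have hPσ : Cf R σ := by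
    refine ⟨fun x hx => ?_, fun x hx => ?_⟩
    · simp only [hσ, hx, if_true]; split_ifs <;> simp
    · simp only [hσ, hx, if_false]
  refine ⟨σ, hPσ, ?_⟩
  intro ρ hρ hfin hne
  set D : Finset X := hfin.toFinset with hD
  have memD : ∀ x, x ∈ D ↔ ρ x ≠ σ x := by intro x; simp [hD]
  have hDR : (D : Set X) ⊆ R := by
    intro x hx
    by_contra hcx
    exact (memD x).1 hx (by rw [hρ.2 x hcx, hPσ.2 x hcx])
  have hDne : D.Nonempty := by
    by_contra hcon
    rw [Finset.not_nonempty_iff_eq_empty] at hcon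
    apply hne
    funext x
    by_contra hx
    have := (memD x).2 hx
    rw [hcon] at this
    simp at this
  have hoff : ∀ x, x ∉ D → ρ x = σ x := by
    intro x hx
    by_contra hc2
    exact hx ((memD x).2 hc2)
  -- the energy difference as a finite sum
  have hfs : ∑ᶠ e, J e * (σ (a e) * σ (b e) - ρ (a e) * ρ (b e)) =
      ∑ e ∈ T D, J e * (σ (a e) * σ (b e) - ρ (a e) * ρ (b e)) := by
    apply finsum_eq_sum_of_support_subset
    intro e he
    by_contra hc2
    apply he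
    have h1 : ¬ (a e ∈ D ∨ b e ∈ D) := fun h => hc2 ((memT D e).2 h)
    push Not at h1
    simp only [hoff _ h1.1, hoff _ h1.2, sub_self, mul_zero]
  rw [hfs]
  -- nonnegative
  have hnn : 0 ≤ ∑ e ∈ T D, J e * (σ (a e) * σ (b e) - ρ (a e) * ρ (b e)) := by
    have h1 : ∀ᶠ Λ in (U : Filter (Finset X)), ∀ e ∈ T D,
        c (A Λ) (a e) = σ (a e) ∧ c (A Λ) (b e) = σ (b e) :=
      (Filter.eventually_all_finset _).2 fun e _ => (hlim (a e)).and (hlim (b e))
    have h2 : ∀ᶠ Λ in (U : Filter (Finset X)), D ⊆ Λ :=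
      Ultrafilter.of_le (Filter.atTop : Filter (Finset X)) (Filter.eventually_ge_atTop D)
    obtain ⟨Λ, hΛ1, hΛ2⟩ := (h1.and h2).exists
    set B : Finset X := (A Λ \ D) ∪ D.filter (fun x => ρ x = -1) with hB
    have hBs : B ⊆ Λ := by
      intro x hx
      rw [hB, Finset.mem_union, Finset.mem_sdiff, Finset.mem_filter] at hx
      rcases hx with hx | hx
      · exact hAs Λ hx.1
      · exact hΛ2 hx.1
    have cBD : ∀ x ∈ D, c B x = ρ x := by
      intro x hx
      have hxR : x ∈ R := hDR hx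
      simp only [hc, hxR, if_true, hB, Finset.mem_union, Finset.mem_sdiff, Finset.mem_filter, hx,
        not_true_eq_false, and_false, true_and, false_or]
      rcases hρ.1 x hxR with h | h
      · rw [h]; norm_num
      · rw [h]; simp
    have cBo : ∀ x, x ∉ D → c B x = c (A Λ) x := by
      intro x hx
      simp only [hc, hB, Finset.mem_union, Finset.mem_sdiff, Finset.mem_filter, hx,
        not_false_eq_true, and_true, false_and, or_false]
    have h3 := hA Λ B hBs
    rw [← sub_nonneg, ← Finset.sum_sub_distrib] at h3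
    have hsub : T D ⊆ T Λ := by
      intro e he
      rw [memT] at he ⊢
      rcases he with he | he
      · exact Or.inl (hΛ2 he)
      · exact Or.inr (hΛ2 he)
    rw [← Finset.sum_subset hsub (fun e _ he => by
      rw [memT] at he
      push Not at he
      rw [cBo _ he.1, cBo _ he.2, sub_self])] at h3
    refine h3.trans (le_of_eq ?_)
    refine Finset.sum_congr rfl fun e he => ?_
    have h4 := hΛ1 e he
    have h5 : ∀ x, c (A Λ) x = σ x → c B x = ρ x := by
      intro x hx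
      by_cases hxD : x ∈ D
      · exact cBD x hxD
      · rw [cBo x hxD, hx, hoff x hxD]
    rw [h5 _ h4.1, h5 _ h4.2, h4.1, h4.2]
    ring
  refine lt_of_le_of_ne hnn (Ne.symm ?_)
  set T1 := (T D).filter (fun e => σ (a e) * σ (b e) - ρ (a e) * ρ (b e) = 2) with hT1
  set T2 := (T D).filter (fun e => σ (a e) * σ (b e) - ρ (a e) * ρ (b e) = -2) with hT2
  have hval : ∀ e, σ (a e) * σ (b e) - ρ (a e) * ρ (b e) = 0 ∨
      σ (a e) * σ (b e) - ρ (a e) * ρ (b e) = 2 ∨
      σ (a e) * σ (b e) - ρ (a e) * ρ (b e) = -2 := by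
    intro e
    by_cases ha : a e ∈ R
    · by_cases hb : b e ∈ R
      · rcases hPσ.1 _ ha with h1 | h1 <;> rcases hPσ.1 _ hb with h2 | h2 <;>
          rcases hρ.1 _ ha with h3 | h3 <;> rcases hρ.1 _ hb with h4 | h4 <;>
          rw [h1, h2, h3, h4] <;> norm_num
      · left; rw [hPσ.2 _ hb, hρ.2 _ hb]; ring
    · left; rw [hPσ.2 _ ha, hρ.2 _ ha]; ring
  have hsum : ∑ e ∈ T D, J e * (σ (a e) * σ (b e) - ρ (a e) * ρ (b e)) =
      2 * (∑ e ∈ T1, J e - ∑ e ∈ T2, J e) := by
    rw [hT1, hT2, Finset.sum_filter, Finset.sum_filter, ← Finset.sum_sub_distrib, Finset.mul_sum]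
    refine Finset.sum_congr rfl fun e _ => ?_
    rcases hval e with h1 | h1 | h1 <;> rw [h1] <;> norm_num
    · ring
    · ring
  rw [hsum]
  obtain ⟨e, he⟩ := hfront D hDne hDR
  have hval2 : σ (a e) * σ (b e) - ρ (a e) * ρ (b e) = 2 ∨
      σ (a e) * σ (b e) - ρ (a e) * ρ (b e) = -2 := by
    rcases he with ⟨he1, he2, he3⟩ | ⟨he1, he2, he3⟩
    · have h1 : ρ (a e) ≠ σ (a e) := (memD _).1 he1
      have h2 : ρ (b e) = σ (b e) := hoff _ he3
      have haR : a e ∈ R := hDR he1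
      rw [h2]
      rcases hPσ.1 _ haR with h3 | h3 <;> rcases hρ.1 _ haR with h4 | h4 <;>
        rcases hPσ.1 _ he2 with h5 | h5 <;> rw [h3, h4, h5] <;>
        first | exact absurd (h4.trans h3.symm) h1 | norm_num
    · have h1 : ρ (b e) ≠ σ (b e) := (memD _).1 he1
      have h2 : ρ (a e) = σ (a e) := hoff _ he3
      have hbR : b e ∈ R := hDR he1
      rw [h2]
      rcases hPσ.1 _ hbR with h3 | h3 <;> rcases hρ.1 _ hbR with h4 | h4 <;>
        rcases hPσ.1 _ he2 with h5 | h5 <;> rw [h3, h4, h5] <;>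
        first | exact absurd (h4.trans h3.symm) h1 | norm_num
  have hmem : e ∈ T D := (memT D e).2 (by
    rcases he with he | he
    · exact Or.inl he.1
    · exact Or.inr he.1)
  have hne2 := hJ T1 T2 (by
    rw [Finset.disjoint_left]
    intro e h1 h2
    rw [hT1, Finset.mem_filter] at h1
    rw [hT2, Finset.mem_filter] at h2
    linarith [h1.2, h2.2]) ⟨e, by
    rw [hT1, hT2, Finset.mem_filter, Finset.mem_filter]
    rcases hval2 with h | h
    · exact Or.inl ⟨hmem, h⟩
    · exact Or.inr ⟨hmem, h⟩⟩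
  intro h0
  apply hne2
  linarith

section

variable (hfib : ∀ x, {e | a e = x ∨ b e = x}.Finite)

/-- Every finite set is contained in a finite set with a cheap cut. -/
def Cheap (R : Set X) (J : E → ℝ) : Prop :=
  ∀ (Λ : Finset X) (k : ℕ), ∃ S : Finset X, Λ ⊆ S ∧ cw hfib R J S < 1 / ((k : ℝ) + 1)

/-- The bond `e0` is undetermined. -/
def Und (R : Set X) (e0 : E) : Set (E → ℝ) :=
  {J | Cheap hfib R J ∧ ∀ k : ℕ, ∃ Λ : Finset X, ∀ S : Finset X, Λ ⊆ S →
    cw hfib R J S < 1 / ((k : ℝ) + 1) → |DD hfib R e0 S J| ≤ 2 / ((k : ℝ) + 1)}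

theorem Und_meas [Countable X] (e0 : E) : MeasurableSet (Und hfib R e0) := by
  have h1 : Und hfib R e0 = (⋂ Λ : Finset X, ⋂ k : ℕ, ⋃ S : Finset X, ⋃ (_ : Λ ⊆ S),
      {J : E → ℝ | cw hfib R J S < 1 / ((k : ℝ) + 1)}) ∩ ⋂ k : ℕ, ⋃ Λ : Finset X,
        ⋂ S : Finset X, ⋂ (_ : Λ ⊆ S), ({J : E → ℝ | cw hfib R J S < 1 / ((k : ℝ) + 1)}ᶜ ∪
          {J : E → ℝ | |DD hfib R e0 S J| ≤ 2 / ((k : ℝ) + 1)}) := by
    ext J
    simp only [Und, Cheap, Set.mem_ofPred_eq, Set.mem_inter_iff, Set.mem_iInter, Set.mem_iUnion,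
      exists_prop, Set.mem_union, Set.mem_compl_iff]
    refine and_congr_right fun _ => forall_congr' fun k => exists_congr fun Λ =>
      forall_congr' fun S => forall_congr' fun _ => ?_
    exact imp_iff_not_or
  rw [h1]
  have m1 : ∀ (S : Finset X) (k : ℕ), MeasurableSet {J : E → ℝ | cw hfib R J S <
      1 / ((k : ℝ) + 1)} := fun S k => measurableSet_lt (cw_meas hfib S) measurable_const
  refine (MeasurableSet.iInter fun Λ => MeasurableSet.iInter fun k => MeasurableSet.iUnion fun S =>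
    MeasurableSet.iUnion fun _ => m1 S k).inter (MeasurableSet.iInter fun k =>
      MeasurableSet.iUnion fun Λ => MeasurableSet.iInter fun S => MeasurableSet.iInter fun _ =>
        (m1 S k).compl.union (measurableSet_le (DD_meas hfib e0 S).abs measurable_const))

theorem Und_null [Countable X] {μ : E → Measure ℝ} [∀ e, IsProbabilityMeasure (μ e)]
    (hat : ∀ e x, μ e {x} = 0) {e0 : E} (haR : a e0 ∈ R) (hbR : b e0 ∈ R) (hne : a e0 ≠ b e0) :
    Measure.infinitePi μ (Und hfib R e0) = 0 := by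
  classical
  refine null_of_fibre hat e0 (Und_meas hfib e0) fun J t t' ht ht' => ?_
  have key : ∀ k : ℕ, |t - t'| ≤ 2 / ((k : ℝ) + 1) := by
    intro k
    obtain ⟨Λ1, h1⟩ := ht.2 k
    obtain ⟨Λ2, h2⟩ := ht'.2 k
    obtain ⟨S, hS, hc⟩ := ht.1 (Λ1 ∪ Λ2 ∪ {a e0, b e0}) k
    have ha : a e0 ∈ S := hS (by simp)
    have hb : b e0 ∈ S := hS (by simp)
    have h3 := h1 S (fun x hx => hS (by simp [hx])) hc
    have h4 := h2 S (fun x hx => hS (by simp [hx])) (by
      rw [cw_update hfib ha hb] at hc ⊢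
      exact hc)
    rw [DD_update hfib haR hbR ha hb hne] at h3 h4
    rw [abs_le] at h3 h4 ⊢
    constructor
    · have e1 : -(2 / ((k : ℝ) + 1)) = (-(2 / ((k : ℝ) + 1)) - 2 / ((k : ℝ) + 1)) / 2 := by ring
      rw [e1]
      linarith [h3.1, h4.2]
    · linarith [h3.2, h4.1]
  by_contra hcon
  have hpos : 0 < |t - t'| / 2 := by
    have := abs_pos.2 (sub_ne_zero.2 hcon)
    linarith
  obtain ⟨k, hk⟩ := exists_nat_one_div_lt hpos
  have h5 := key k
  have e1 : (2 : ℝ) / ((k : ℝ) + 1) = 2 * (1 / ((k : ℝ) + 1)) := by ring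
  rw [e1] at h5
  linarith

theorem und_of {J : E → ℝ} (hc : Cheap hfib R J) {σ τ : X → ℝ} (hσ : GS a b R J σ)
    (hτ : GS a b R J τ) {e0 : E} (haR : a e0 ∈ R) (hbR : b e0 ∈ R) (hne : a e0 ≠ b e0)
    (h1 : σ (a e0) * σ (b e0) = 1) (h2 : τ (a e0) * τ (b e0) = -1) : J ∈ Und hfib R e0 := by
  classical
  refine ⟨hc, fun k => ⟨{a e0, b e0}, fun S hS hcS => ?_⟩⟩
  have ha : a e0 ∈ S := hS (by simp)
  have hb : b e0 ∈ S := hS (by simp)
  have h3 := gs_opt hfib hσ ha hb h1 (-1) (by norm_num) (fam_neg haR hbR ha hne)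
  have h4 := gs_opt hfib hτ ha hb h2 1 (by norm_num) (fam_pos haR hbR)
  have e1 : (2 : ℝ) / ((k : ℝ) + 1) = 2 * (1 / ((k : ℝ) + 1)) := by ring
  rw [e1, abs_le]
  unfold DD
  constructor <;> linarith

/-- **The criterion.**  Almost surely: if there are cheap cuts then there is exactly one pair of
ground states. -/
theorem main [Countable X] [Countable E] {μ : E → Measure ℝ} [∀ e, IsProbabilityMeasure (μ e)]
    (hat : ∀ e x, μ e {x} = 0) (hR : R.Infinite)
    (hconn : ∀ D : Set X, D ⊆ R → D.Nonempty → D ≠ R →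
      ∃ e, (a e ∈ D ∧ b e ∈ R ∧ b e ∉ D) ∨ (b e ∈ D ∧ a e ∈ R ∧ a e ∉ D)) :
    ∀ᵐ J ∂(Measure.infinitePi μ), Cheap hfib R J →
      ∃ σ : X → ℝ, {ρ | GS a b R J ρ} = {σ, -σ} := by
  classical
  have h1 : ∀ᵐ J ∂(Measure.infinitePi μ), ∀ e0 : E, a e0 ∈ R → b e0 ∈ R → a e0 ≠ b e0 →
      J ∉ Und hfib R e0 := by
    rw [ae_all_iff]
    intro e0
    by_cases h : a e0 ∈ R ∧ b e0 ∈ R ∧ a e0 ≠ b e0
    · have h2 := Und_null hfib hat h.1 h.2.1 h.2.2
      have h3 : ∀ᵐ J ∂(Measure.infinitePi μ), J ∉ Und hfib R e0 := by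
        rw [ae_iff]
        simpa using h2
      filter_upwards [h3] with J hJ _ _ _
      exact hJ
    · exact Eventually.of_forall fun J h2 h3 h4 => absurd ⟨h2, h3, h4⟩ h
  filter_upwards [h1, gen_ae hat] with J hJ hg hc
  obtain ⟨σ, hσ⟩ := exists_gs hfib (fun D hD hDR => by
    obtain ⟨e, he⟩ := hconn D hDR hD (fun h => hR (h ▸ D.finite_toSet))
    exact ⟨e, he⟩) hg
  refine ⟨σ, ?_⟩
  ext τ
  constructor
  · intro hτ
    have hτ' : GS a b R J τ := hτ
    have hbond : ∀ e, a e ∈ R → b e ∈ R → σ (a e) * σ (b e) = τ (a e) * τ (b e) := by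
      intro e haR hbR
      by_cases hne : a e = b e
      · rw [← hne]
        rcases hσ.1.1 _ haR with h2 | h2 <;> rcases hτ'.1.1 _ haR with h3 | h3 <;>
          rw [h2, h3] <;> norm_num
      · have hs : σ (a e) * σ (b e) = 1 ∨ σ (a e) * σ (b e) = -1 := by
          rcases hσ.1.1 _ haR with h2 | h2 <;> rcases hσ.1.1 _ hbR with h3 | h3 <;>
            rw [h2, h3] <;> norm_num
        have ht : τ (a e) * τ (b e) = 1 ∨ τ (a e) * τ (b e) = -1 := by
          rcases hτ'.1.1 _ haR with h2 | h2 <;> rcases hτ'.1.1 _ hbR with h3 | h3 <;>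
            rw [h2, h3] <;> norm_num
        rcases hs with hs | hs <;> rcases ht with ht | ht
        · rw [hs, ht]
        · exact absurd (und_of hfib hc hσ hτ' haR hbR hne hs ht) (hJ e haR hbR hne)
        · exact absurd (und_of hfib hc hτ' hσ haR hbR hne ht hs) (hJ e haR hbR hne)
        · rw [hs, ht]
    set D : Set X := {x | x ∈ R ∧ σ x = τ x} with hD
    by_cases hne : D.Nonempty
    · left
      have hDR : D = R := by
        by_contra hcon
        obtain ⟨e, he⟩ := hconn D (fun x hx => hx.1) hne hcon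
        rcases he with ⟨h2, h3, h4⟩ | ⟨h2, h3, h4⟩
        · have h5 := hbond e h2.1 h3
          rw [h2.2] at h5
          have h6 : τ (a e) ≠ 0 := by rcases hτ'.1.1 _ h2.1 with h | h <;> rw [h] <;> norm_num
          exact h4 ⟨h3, mul_left_cancel₀ h6 h5⟩
        · have h5 := hbond e h3 h2.1
          rw [h2.2] at h5
          have h6 : τ (b e) ≠ 0 := by rcases hτ'.1.1 _ h2.1 with h | h <;> rw [h] <;> norm_num
          exact h4 ⟨h3, mul_right_cancel₀ h6 h5⟩
      funext x
      by_cases hx : x ∈ R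
      · have h2 : x ∈ D := by rw [hDR]; exact hx
        exact h2.2.symm
      · rw [hτ'.1.2 x hx, hσ.1.2 x hx]
    · right
      funext x
      rw [Pi.neg_apply]
      by_cases hx : x ∈ R
      · have h2 : σ x ≠ τ x := fun h => hne ⟨x, hx, h⟩
        rcases hσ.1.1 x hx with h3 | h3 <;> rcases hτ'.1.1 x hx with h4 | h4
        · exact absurd (h3.trans h4.symm) h2
        · rw [h3, h4]
        · rw [h3, h4, neg_neg]
        · exact absurd (h3.trans h4.symm) h2
      · rw [hτ'.1.2 x hx, hσ.1.2 x hx, neg_zero]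
  · rintro (h | h)
    · rw [h]; exact hσ
    · rw [h]; exact hσ.neg

end

end Pool.Agent.Q218.EA
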