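import Pool.Agent.H853R3.PP.TaskResample

/-!
Null sets of a product measure from the fibres of one coordinate; independent blocks.
-/

set_option autoImplicit false

open MeasureTheory ProbabilityTheory Filter

namespace Pool.Agent.Q218.EA

variable {E : Type} {μ : E → Measure ℝ} [∀ e, IsProbabilityMeasure (μ e)]

/-- A measurable set whose fibres in the direction of one coordinate contain at most one point is
a null set of the product of atomless laws. -/
theorem null_of_fibre (hat : ∀ e x, μ e {x} = 0) [DecidableEq E] (e0 : E) {B : Set (E → ℝ)}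
    (hB : MeasurableSet B) (h : ∀ (J : E → ℝ) (t t' : ℝ), Function.update J e0 t ∈ B →
      Function.update J e0 t' ∈ B → t = t') : Measure.infinitePi μ B = 0 := by
  have h1 := Pool.Agent.H853R3.PP.Resample.taskResample E (fun _ => ℝ) μ e0
  have hm : Measurable (fun p : (E → ℝ) × ℝ => Function.update p.1 e0 p.2) :=
    Pool.Agent.H853R3.PP.Resample.measurable_upd (X := fun _ : E => ℝ) e0
  rw [← h1, Measure.map_apply hm hB, Measure.prod_apply (hm hB), lintegral_eq_zero_iff
    (measurable_measure_prodMk_left (hm hB))]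
  refine Eventually.of_forall fun J => ?_
  show μ e0 (Prod.mk J ⁻¹' ((fun p : (E → ℝ) × ℝ => Function.update p.1 e0 p.2) ⁻¹' B)) = 0
  have hsub : (Prod.mk J ⁻¹' ((fun p : (E → ℝ) × ℝ => Function.update p.1 e0 p.2) ⁻¹' B)).Subsingleton :=
    fun t ht t' ht' => h J t t' ht ht'
  rcases hsub.eq_empty_or_singleton with h2 | ⟨x, h2⟩
  · rw [h2, measure_empty]
  · rw [h2, hat]

/-- No nontrivial signed sum of couplings vanishes. -/
theorem gen_ae (hat : ∀ e x, μ e {x} = 0) [Countable E] :
    ∀ᵐ J ∂(Measure.infinitePi μ), ∀ T1 T2 : Finset E, Disjoint T1 T2 →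
      (∃ e, e ∈ T1 ∨ e ∈ T2) → ∑ e ∈ T1, J e ≠ ∑ e ∈ T2, J e := by
  classical
  rw [ae_all_iff]; intro T1
  rw [ae_all_iff]; intro T2
  by_cases hd : Disjoint T1 T2
  swap
  · exact Eventually.of_forall fun J hex => absurd hex hd
  by_cases he : ∃ e, e ∈ T1 ∨ e ∈ T2
  swap
  · exact Eventually.of_forall fun J _ hex => absurd hex he
  obtain ⟨e0, he0⟩ := he
  rw [ae_iff]
  have h1 : Measure.infinitePi μ {J : E → ℝ | ∑ e ∈ T1, J e = ∑ e ∈ T2, J e} = 0 := by
    refine null_of_fibre hat e0 (measurableSet_eq_fun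
      (Finset.measurable_sum _ fun e _ => measurable_pi_apply e)
      (Finset.measurable_sum _ fun e _ => measurable_pi_apply e)) ?_
    intro J t t' ht ht'
    have key : ∀ (T : Finset E) (s : ℝ), ∑ e ∈ T, Function.update J e0 s e =
        ∑ e ∈ T.erase e0, J e + if e0 ∈ T then s else 0 := by
      intro T s
      split_ifs with hT
      · rw [← Finset.sum_erase_add _ _ hT, Function.update_self]
        congr 1
        exact Finset.sum_congr rfl fun e he => Function.update_of_ne (Finset.ne_of_mem_erase he) _ _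
      · rw [Finset.erase_eq_of_notMem hT, add_zero]
        exact Finset.sum_congr rfl fun e he =>
          Function.update_of_ne (fun h => hT (by rw [← h]; exact he)) _ _
    have ht1 : ∑ e ∈ T1, Function.update J e0 t e = ∑ e ∈ T2, Function.update J e0 t e := ht
    have ht2 : ∑ e ∈ T1, Function.update J e0 t' e = ∑ e ∈ T2, Function.update J e0 t' e := ht'
    rw [key, key] at ht1 ht2
    rcases he0 with h0 | h0
    · have h3 : e0 ∉ T2 := Finset.disjoint_left.1 hd h0
      rw [if_pos h0, if_neg h3] at ht1 ht2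
      linarith
    · have h3 : e0 ∉ T1 := Finset.disjoint_right.1 hd h0
      rw [if_pos h0, if_neg h3] at ht1 ht2
      linarith
  refine measure_mono_null ?_ h1
  intro J hJ
  simp only [Classical.not_imp, ne_eq, not_not, Set.mem_ofPred_eq] at hJ ⊢
  exact hJ.2.2

/-- Events on disjoint finite blocks of coordinates are independent. -/
theorem blocks_indep {Bk : ℕ → Finset E} (hdis : ∀ m n, m ≠ n → Disjoint (Bk m) (Bk n))
    (I : ℕ → Set ℝ) (hI : ∀ n, MeasurableSet (I n)) :
    iIndepSet (fun n => Set.pi (Bk n : Set E) fun _ => I n) (Measure.infinitePi μ) := by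
  classical
  have hm : ∀ n, MeasurableSet (Set.pi (Bk n : Set E) fun _ => I n : Set (E → ℝ)) := fun n =>
    MeasurableSet.pi (Bk n).countable_toSet fun _ _ => hI n
  rw [iIndepSet_iff_meas_biInter hm]
  intro s
  set t : E → Set ℝ := fun e => {x | ∀ n ∈ s, e ∈ Bk n → x ∈ I n} with ht
  have htm : ∀ e, MeasurableSet (t e) := by
    intro e
    have : t e = ⋂ n ∈ s, ⋂ (_ : e ∈ Bk n), I n := by
      ext x
      simp only [ht, Set.mem_ofPred_eq, Set.mem_iInter]
    rw [this]
    exact Finset.measurableSet_biInter _ fun n _ => MeasurableSet.iInter fun _ => hI n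
  have h1 : (⋂ n ∈ s, (Set.pi (Bk n : Set E) fun _ => I n : Set (E → ℝ))) =
      Set.pi ((s.biUnion Bk : Finset E) : Set E) t := by
    ext J
    simp only [Set.mem_iInter, Set.mem_pi, Finset.mem_coe, Finset.mem_biUnion, ht,
      Set.mem_ofPred_eq]
    constructor
    · intro h e _ n hn he
      exact h n hn e he
    · intro h n hn e he
      exact h e ⟨n, hn, he⟩ n hn he
  rw [h1, Measure.infinitePi_pi _ (fun e _ => htm e), Finset.prod_biUnion
    (fun m _ n _ hmn => hdis m n hmn)]
  apply Finset.prod_congr rfl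
  intro n hn
  rw [Measure.infinitePi_pi _ (fun e _ => hI n)]
  apply Finset.prod_congr rfl
  intro e he
  have : t e = I n := by
    ext x
    simp only [ht, Set.mem_ofPred_eq]
    constructor
    · intro h; exact h n hn he
    · intro h m _ hem
      have : m = n := by
        by_contra hne
        exact (Finset.disjoint_left.1 (hdis m n hne)) hem he
      rw [this]; exact h
  rw [this]

/-- Second Borel-Cantelli lemma for blocks. -/
theorem blocks_often {Bk : ℕ → Finset E} (hdis : ∀ m n, m ≠ n → Disjoint (Bk m) (Bk n))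
    (I : ℕ → Set ℝ) (hI : ∀ n, MeasurableSet (I n))
    (hs : ∑' n, ∏ e ∈ Bk n, μ e (I n) = ⊤) :
    ∀ᵐ J ∂(Measure.infinitePi μ), ∃ᶠ n in atTop, ∀ e ∈ Bk n, J e ∈ I n := by
  have hm : ∀ n, MeasurableSet (Set.pi (Bk n : Set E) fun _ => I n : Set (E → ℝ)) := fun n =>
    MeasurableSet.pi (Bk n).countable_toSet fun _ _ => hI n
  have h1 := measure_limsup_eq_one hm (blocks_indep (μ := μ) hdis I hI) (by
    rw [← hs]
    congr 1
    funext n
    rw [Measure.infinitePi_pi _ (fun e _ => hI n)])
  have hml : MeasurableSet (limsup (fun n => (Set.pi (Bk n : Set E) fun _ => I n : Set (E → ℝ)))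
      atTop) := MeasurableSet.measurableSet_limsup hm
  have h2 := (prob_compl_eq_zero_iff hml).2 h1
  rw [← compl_compl (limsup _ _)] at h2
  have h3 : ∀ᵐ J ∂(Measure.infinitePi μ), J ∈ limsup (fun n =>
      (Set.pi (Bk n : Set E) fun _ => I n : Set (E → ℝ))) atTop := by
    rw [ae_iff]
    refine measure_mono_null ?_ h2
    intro J hJ
    simpa using hJ
  filter_upwards [h3] with J hJ
  rw [mem_limsup_iff_frequently_mem] at hJ
  exact hJ.mono fun n hn e he => hn e he

end Pool.Agent.Q218.EA
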