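import Pool.Agent.Q218.EA.BC

/-!
Two-sided horns: connectivity and the divergence of the series.
-/

set_option autoImplicit false

open MeasureTheory ProbabilityTheory Filter Topology

namespace Pool.Agent.Q218.EA

open Pool.Agent.TH761.EB (Cf GS aa bb horn_fib)

theorem horn2_inv {k : ℕ} {w : ℕ → ℕ} {P : (Fin (k + 1) → ℤ) → Prop}
    (h : ∀ (v : Fin (k + 1) → ℤ) (i : Fin (k + 1)), v ∈ horn2 k w →
      v + (Pi.single i (1 : ℤ) : Fin (k + 1) → ℤ) ∈ horn2 k w →
      (P v ↔ P (v + (Pi.single i (1 : ℤ) : Fin (k + 1) → ℤ)))) :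
    ∀ (N : ℕ) (v : Fin (k + 1) → ℤ), v ∈ horn2 k w → ∑ i, (v i).natAbs < N → (P v ↔ P 0) := by
  intro N
  induction N with
  | zero => intro v _ hN; omega
  | succ N ih =>
    intro v hv hN
    by_cases hv0 : v = 0
    · rw [hv0]
    -- choose a coordinate
    obtain ⟨i, hi, hi2⟩ : ∃ i : Fin (k + 1), v i ≠ 0 ∧ (i = 0 → ∀ j : Fin k, v j.succ = 0) := by
      by_cases hj : ∃ j : Fin k, v j.succ ≠ 0
      · obtain ⟨j, hj⟩ := hj
        exact ⟨j.succ, hj, fun h => absurd h (Fin.succ_ne_zero j)⟩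
      · push Not at hj
        refine ⟨0, fun h0 => hv0 ?_, fun _ => hj⟩
        funext i
        refine Fin.cases h0 (fun j => hj j) i
    have gen : ∀ s : ℤ, (∀ j, ((v + (Pi.single i s : Fin (k + 1) → ℤ)) j).natAbs ≤ (v j).natAbs) →
        ((v + (Pi.single i s : Fin (k + 1) → ℤ)) i).natAbs < (v i).natAbs →
        v + (Pi.single i s : Fin (k + 1) → ℤ) ∈ horn2 k w ∧
          ∑ j, ((v + (Pi.single i s : Fin (k + 1) → ℤ)) j).natAbs < N := by
      intro s h1 h2
      constructor
      · intro j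
        by_cases hi0 : i = 0
        · have h3 := h1 j.succ
          rw [hi2 hi0 j] at h3
          have h4 : (v + (Pi.single i s : Fin (k + 1) → ℤ)) j.succ = 0 := by
            have : ((v + (Pi.single i s : Fin (k + 1) → ℤ)) j.succ).natAbs ≤ 0 := h3
            omega
          rw [h4, abs_zero]
          positivity
        · have h3 : (v + (Pi.single i s : Fin (k + 1) → ℤ)) 0 = v 0 := by
            rw [Pi.add_apply, Pi.single_eq_of_ne (Ne.symm hi0), add_zero]
          rw [h3]
          refine le_trans ?_ (hv j)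
          rw [Int.abs_eq_natAbs, Int.abs_eq_natAbs]
          exact_mod_cast h1 j.succ
      · have := Finset.sum_lt_sum (s := Finset.univ) (fun j _ => h1 j) ⟨i, Finset.mem_univ _, h2⟩
        omega
    rcases lt_or_gt_of_ne hi with hneg | hpos
    · have h1 := gen 1 (fun j => by
        by_cases hj : j = i
        · subst hj; rw [Pi.add_apply, Pi.single_eq_same]; omega
        · rw [Pi.add_apply, Pi.single_eq_of_ne hj, add_zero]) (by
          rw [Pi.add_apply, Pi.single_eq_same]; omega)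
      rw [h v i hv h1.1]
      exact ih _ h1.1 h1.2
    · have h1 := gen (-1) (fun j => by
        by_cases hj : j = i
        · subst hj; rw [Pi.add_apply, Pi.single_eq_same]; omega
        · rw [Pi.add_apply, Pi.single_eq_of_ne hj, add_zero]) (by
          rw [Pi.add_apply, Pi.single_eq_same]; omega)
      have h2 : v + (Pi.single i (-1) : Fin (k + 1) → ℤ) + (Pi.single i 1 : Fin (k + 1) → ℤ) = v := by
        rw [add_assoc, ← Pi.single_add]
        simp
      have h3 := h (v + (Pi.single i (-1) : Fin (k + 1) → ℤ)) i h1.1 (by rw [h2]; exact hv)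
      rw [h2] at h3
      rw [← h3]
      exact ih _ h1.1 h1.2

theorem horn2_conn {k : ℕ} {w : ℕ → ℕ} (D : Set (Fin (k + 1) → ℤ)) (hD : D ⊆ horn2 k w)
    (hne : D.Nonempty) (hDR : D ≠ horn2 k w) :
    ∃ e : (Fin (k + 1) → ℤ) × Fin (k + 1), (aa e ∈ D ∧ bb e ∈ horn2 k w ∧ bb e ∉ D) ∨
      (bb e ∈ D ∧ aa e ∈ horn2 k w ∧ aa e ∉ D) := by
  by_contra hcon
  push Not at hcon
  have h1 : ∀ v ∈ horn2 k w, (v ∈ D ↔ (0 : Fin (k + 1) → ℤ) ∈ D) := by
    intro v hv
    refine horn2_inv (P := fun v => v ∈ D) (fun u i hu hu' => ?_) _ v hv (Nat.lt_succ_self _)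
    have h2 := hcon (u, i)
    constructor
    · intro h
      by_contra h3
      exact h3 (h2.1 h hu')
    · intro h
      by_contra h3
      exact h3 (h2.2 h hu)
  obtain ⟨v, hv⟩ := hne
  have h0 := (h1 v (hD hv)).1 hv
  apply hDR
  apply Set.Subset.antisymm hD
  intro u hu
  exact (h1 u hu).2 h0

/-- The series diverges. -/
theorem horn_div {μ0 : Measure ℝ} [IsProbabilityMeasure μ0] {c C : ℝ} (hc : 0 < c) (hC : 0 ≤ C)
    (hlow : ∀ t : ℝ, 0 < t → t ≤ 1 → ENNReal.ofReal (c * t ^ C) ≤ μ0 (Set.Icc (-t) t))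
    {k : ℕ} {w : ℕ → ℕ} (hg : Tendsto (fun n : ℕ => ((w n : ℝ) + 1) ^ k * Real.log ((w n : ℝ) + 2) /
      Real.log n) atTop (𝓝 0)) {ε : ℝ} (hε : 0 < ε) :
    ∑' n : ℕ, μ0 (Set.Icc (-(ε / (((2 * (2 * w n + 1) ^ k : ℕ) : ℝ) + 1)))
      (ε / (((2 * (2 * w n + 1) ^ k : ℕ) : ℝ) + 1))) ^ (2 * (2 * w n + 1) ^ k) = ⊤ := by
  set m : ℕ → ℕ := fun n => 2 * (2 * w n + 1) ^ k with hm
  set ε' : ℝ := min ε 1 with hε'
  have hε0 : 0 < ε' := lt_min hε one_pos
  have hl2 : 0 < Real.log 2 := Real.log_pos (by norm_num)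
  set B : ℝ := |Real.log c| + C * |Real.log ε'| with hB
  have hB0 : 0 ≤ B := by positivity
  set A : ℝ := 2 ^ (k + 1) * (B / Real.log 2 + C * (2 * k + 2)) with hA
  have hA0 : 0 ≤ A := by positivity
  -- termwise bound
  have hterm : ∀ᶠ n : ℕ in atTop, (1 : ℝ) / n ≤
      (μ0 (Set.Icc (-(ε / ((m n : ℝ) + 1))) (ε / ((m n : ℝ) + 1))) ^ (m n)).toReal := by
    have hev : ∀ᶠ n : ℕ in atTop, ((w n : ℝ) + 1) ^ k * Real.log ((w n : ℝ) + 2) / Real.log n <
        1 / (A + 1) := hg.eventually (gt_mem_nhds (by positivity))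
    filter_upwards [hev, eventually_ge_atTop 2] with n hn hn2
    have hn0 : (0 : ℝ) < n := by exact_mod_cast (by omega : 0 < n)
    have hlog : 0 < Real.log n := Real.log_pos (by exact_mod_cast (by omega : 1 < n))
    have hw0 : (0 : ℝ) ≤ w n := by positivity
    have hm0 : (0 : ℝ) < (m n : ℝ) + 1 := by positivity
    set t : ℝ := ε' / ((m n : ℝ) + 1) with ht
    have ht0 : 0 < t := by positivity
    have ht1 : t ≤ 1 := by
      rw [ht, div_le_one hm0]
      have : ε' ≤ 1 := min_le_right _ _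
      have h1 : (0 : ℝ) ≤ m n := by positivity
      linarith
    have hlw : Real.log 2 ≤ Real.log ((w n : ℝ) + 2) :=
      Real.log_le_log (by norm_num) (by linarith)
    have hlw0 : 0 < Real.log ((w n : ℝ) + 2) := hl2.trans_le hlw
    -- upper bound for m
    have hmW : (m n : ℝ) ≤ 2 ^ (k + 1) * ((w n : ℝ) + 1) ^ k := by
      rw [hm]
      push_cast
      have h1 : (2 * (w n : ℝ) + 1) ^ k ≤ (2 * ((w n : ℝ) + 1)) ^ k :=
        pow_le_pow_left₀ (by positivity) (by linarith) k
      rw [mul_pow] at h1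
      calc (2 : ℝ) * (2 * (w n : ℝ) + 1) ^ k ≤ 2 * (2 ^ k * ((w n : ℝ) + 1) ^ k) := by linarith
        _ = _ := by ring
    have hlm : Real.log ((m n : ℝ) + 1) ≤ (2 * k + 2) * Real.log ((w n : ℝ) + 2) := by
      have h1 : (m n : ℝ) + 1 ≤ ((w n : ℝ) + 2) ^ (2 * k + 2) := by
        have h2 : (1 : ℝ) ≤ ((w n : ℝ) + 1) ^ k := one_le_pow₀ (by linarith)
        have h3 : (m n : ℝ) + 1 ≤ 2 ^ (k + 2) * ((w n : ℝ) + 1) ^ k := by
          have h4 : (1 : ℝ) ≤ 2 ^ (k + 1) * ((w n : ℝ) + 1) ^ k := by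
            have : (1 : ℝ) ≤ 2 ^ (k + 1) := one_le_pow₀ (by norm_num)
            nlinarith
          calc (m n : ℝ) + 1 ≤ 2 ^ (k + 1) * ((w n : ℝ) + 1) ^ k +
                2 ^ (k + 1) * ((w n : ℝ) + 1) ^ k := by linarith
            _ = _ := by ring
        refine h3.trans ?_
        have h5 : (2 : ℝ) ^ (k + 2) ≤ ((w n : ℝ) + 2) ^ (k + 2) :=
          pow_le_pow_left₀ (by norm_num) (by linarith) _
        have h6 : ((w n : ℝ) + 1) ^ k ≤ ((w n : ℝ) + 2) ^ k :=
          pow_le_pow_left₀ (by positivity) (by linarith) _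
        calc (2 : ℝ) ^ (k + 2) * ((w n : ℝ) + 1) ^ k ≤
              ((w n : ℝ) + 2) ^ (k + 2) * ((w n : ℝ) + 2) ^ k :=
              mul_le_mul h5 h6 (by positivity) (by positivity)
          _ = _ := by rw [← pow_add]; congr 1; omega
      calc Real.log ((m n : ℝ) + 1) ≤ Real.log (((w n : ℝ) + 2) ^ (2 * k + 2)) :=
            Real.log_le_log hm0 h1
        _ = _ := by rw [Real.log_pow]; push_cast; ring
    -- the exponent
    have hexp : (m n : ℝ) * (B + C * Real.log ((m n : ℝ) + 1)) ≤ Real.log n := by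
      have h1 : B + C * Real.log ((m n : ℝ) + 1) ≤
          (B / Real.log 2 + C * (2 * k + 2)) * Real.log ((w n : ℝ) + 2) := by
        have h2 : B ≤ B / Real.log 2 * Real.log ((w n : ℝ) + 2) := by
          rw [div_mul_eq_mul_div, le_div_iff₀ hl2]
          exact mul_le_mul_of_nonneg_left hlw hB0
        have h3 := mul_le_mul_of_nonneg_left hlm hC
        linarith
      have h0 : 0 ≤ B + C * Real.log ((m n : ℝ) + 1) := by
        have : 0 ≤ Real.log ((m n : ℝ) + 1) := Real.log_nonneg (by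
          have : (0 : ℝ) ≤ m n := by positivity
          linarith)
        positivity
      calc (m n : ℝ) * (B + C * Real.log ((m n : ℝ) + 1)) ≤
            (2 ^ (k + 1) * ((w n : ℝ) + 1) ^ k) *
              ((B / Real.log 2 + C * (2 * k + 2)) * Real.log ((w n : ℝ) + 2)) :=
            mul_le_mul hmW h1 h0 (by positivity)
        _ = A * (((w n : ℝ) + 1) ^ k * Real.log ((w n : ℝ) + 2)) := by rw [hA]; ring
        _ ≤ A * (Real.log n / (A + 1)) := by
            apply mul_le_mul_of_nonneg_left _ hA0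
            rw [div_lt_div_iff₀ hlog (by positivity)] at hn
            rw [le_div_iff₀ (by positivity)]
            linarith
        _ ≤ Real.log n := by
            rw [mul_div_assoc', div_le_iff₀ (by positivity)]
            nlinarith
    have hbase : ENNReal.ofReal (c * t ^ C) ≤
        μ0 (Set.Icc (-(ε / ((m n : ℝ) + 1))) (ε / ((m n : ℝ) + 1))) := by
      refine (hlow t ht0 ht1).trans (measure_mono ?_)
      have : t ≤ ε / ((m n : ℝ) + 1) := by
        rw [ht]
        gcongr
        exact min_le_left _ _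
      exact Set.Icc_subset_Icc (by linarith) this
    rw [ENNReal.toReal_pow]
    have h5 : c * t ^ C ≤ (μ0 (Set.Icc (-(ε / ((m n : ℝ) + 1))) (ε / ((m n : ℝ) + 1)))).toReal := by
      have := ENNReal.toReal_mono (measure_ne_top _ _) hbase
      rwa [ENNReal.toReal_ofReal (by positivity)] at this
    refine le_trans ?_ (pow_le_pow_left₀ (by positivity) h5 _)
    have h6 : c * t ^ C = Real.exp (Real.log c + C * Real.log t) := by
      rw [Real.exp_add, Real.exp_log hc, mul_comm C, Real.exp_mul, Real.exp_log ht0]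
    rw [h6, ← Real.exp_nat_mul]
    have h7 : (1 : ℝ) / n = Real.exp (-Real.log n) := by
      rw [Real.exp_neg, Real.exp_log hn0, one_div]
    rw [h7]
    apply Real.exp_le_exp.2
    have h8 : Real.log t = Real.log ε' - Real.log ((m n : ℝ) + 1) := by
      rw [ht, Real.log_div hε0.ne' hm0.ne']
    have h9 : -(B + C * Real.log ((m n : ℝ) + 1)) ≤ Real.log c + C * Real.log t := by
      rw [h8, hB]
      have e1 := neg_abs_le (Real.log c)
      have e2 := mul_le_mul_of_nonneg_left (neg_abs_le (Real.log ε')) hC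
      linarith
    have h10 : (0 : ℝ) ≤ m n := by positivity
    have h11 := mul_le_mul_of_nonneg_left h9 h10
    linarith
  by_contra hcon
  have h1 := ENNReal.summable_toReal hcon
  have h2 : Summable fun n : ℕ => (1 : ℝ) / n := by
    refine Summable.of_norm_bounded_eventually_nat h1 ?_
    filter_upwards [hterm] with n hn
    rw [Real.norm_eq_abs, abs_of_nonneg (by positivity)]
    exact hn
  exact Real.not_summable_one_div_natCast h2

end Pool.Agent.Q218.EA
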